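import Mathlib
import Pool.Agent.N893.RK.Greedy
import Pool.Agent.N893.RK.Rankin
import Pool.Agent.Erdos456.Sieve

set_option autoImplicit false
set_option maxHeartbeats 4000000

/-! # Quadratic polynomials `a t² + b t + c` without small prime values: the survivors -/

namespace Pool.Agent.N893.CF

open Finset Filter Pool.Agent.H318R2.Cr Pool.Agent.H398R2.RK Pool.Agent.N893.RK

open scoped Classical

/-- Brun's upper bound for prime pairs with difference `2 u`. -/
theorem pair_le (u : ℕ) (hu : 1 ≤ u) : ∃ C : ℝ, 0 < C ∧ ∀ N : ℕ, 2 ≤ N →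
    (((Finset.Icc 1 N).filter (fun n => n.Prime ∧ (n + 2 * u).Prime)).card : ℝ) ≤
      C * N / (Real.log N) ^ 2 := by
  obtain ⟨C, hC, h⟩ := Pool.Agent.Erdos456.sieve_two
  refine ⟨C * (((2 * u : ℕ) : ℝ) / ((Nat.totient (2 * u) : ℕ) : ℝ)) ^ 2, ?_, fun N hN => ?_⟩
  · have h1 : 0 < Nat.totient (2 * u) := Nat.totient_pos.2 (by omega)
    have h2 : (0 : ℝ) < (Nat.totient (2 * u) : ℕ) := by exact_mod_cast h1
    have h3 : (0 : ℝ) < ((2 * u : ℕ) : ℝ) := by exact_mod_cast (by omega : 0 < 2 * u)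
    positivity
  · have h1 := h 1 0 1 (2 * u) N one_pos one_pos (by simp) (by simp) (by omega) hN
    have e1 : ((1 * 1 * (((1 * (2 * u) : ℕ) : ℤ) - ((1 * 0 : ℕ) : ℤ)).natAbs : ℕ)) = 2 * u := by
      simp
      try omega
    rw [e1] at h1
    simp only [one_mul, add_zero] at h1
    refine h1.trans (le_of_eq ?_)
    ring

/-- removing the prime factors of `k` from the product costs nothing -/
theorem prod_ndvd (S : Finset ℕ) (v₀ : ℝ) (hv₀ : 3 ≤ v₀) (hS : ∀ p ∈ S, p.Prime ∧ v₀ < (p : ℝ))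
    (k : ℕ) (hk : 1 ≤ k) :
    ∏ p ∈ S.filter (fun p => ¬ p ∣ k), (1 - 1 / (p : ℝ)) ≤
      (∏ p ∈ S, (1 - 1 / (p : ℝ))) * Real.exp (4 * Real.log k / v₀) := by
  have hv0 : 0 < v₀ := by linarith
  have h2 : ∏ p ∈ S, (1 - 1 / (p : ℝ)) =
      (∏ p ∈ S.filter (fun p => ¬ p ∣ k), (1 - 1 / (p : ℝ))) *
        ∏ p ∈ S.filter (fun p => p ∣ k), (1 - 1 / (p : ℝ)) := by
    rw [← prod_filter_mul_prod_filter_not S (fun p => p ∣ k)]
    ring
  have h3 : 1 ≤ (∏ p ∈ S.filter (fun p => p ∣ k), (1 - 1 / (p : ℝ))) *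
      Real.exp (4 * Real.log k / v₀) := by
    have h4 : Real.exp (-(4 * Real.log k / v₀)) ≤ ∏ p ∈ S.filter (fun p => p ∣ k), (1 - 1 / (p : ℝ)) := by
      have h5 : ∏ p ∈ S.filter (fun p => p ∣ k), Real.exp (-(2 / v₀)) ≤
          ∏ p ∈ S.filter (fun p => p ∣ k), (1 - 1 / (p : ℝ)) := by
        apply Finset.prod_le_prod (fun _ _ => (Real.exp_pos _).le)
        intro p hp
        have hpS := (mem_filter.1 hp).1
        have hpv := (hS p hpS).2
        have hp3 : (3 : ℝ) ≤ p := by linarith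
        have h6 := exp_le_one_sub (x := 1 / (p : ℝ)) (by positivity)
          (one_div_le_one_div_of_le (by norm_num) (by linarith))
        refine le_trans (Real.exp_le_exp.2 ?_) h6
        have h7 : 1 / (p : ℝ) ≤ 1 / v₀ := one_div_le_one_div_of_le hv0 hpv.le
        have h8 : (1 / (p : ℝ)) ^ 2 ≤ 1 / 3 * (1 / p) := by
          rw [sq]
          apply mul_le_mul_of_nonneg_right _ (by positivity)
          exact one_div_le_one_div_of_le (by norm_num) hp3
        have h9 : 2 / v₀ = 2 * (1 / v₀) := by ring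
        have h10 : 0 < 1 / (p : ℝ) := by positivity
        nlinarith
      refine le_trans ?_ h5
      rw [prod_const, ← Real.exp_nat_mul]
      apply Real.exp_le_exp.2
      have h11 : ((S.filter (fun p => p ∣ k)).card : ℝ) ≤ 2 * Real.log k := by
        have h12 : 2 ^ (S.filter (fun p => p ∣ k)).card ≤ k := by
          have h13 : (S.filter (fun p => p ∣ k)) ⊆ k.primeFactors := by
            intro p hp
            rw [mem_filter] at hp
            exact Nat.mem_primeFactors.2 ⟨(hS p hp.1).1, hp.2, by omega⟩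
          calc 2 ^ (S.filter (fun p => p ∣ k)).card ≤ 2 ^ k.primeFactors.card :=
                Nat.pow_le_pow_right (by norm_num) (card_le_card h13)
            _ ≤ ∏ p ∈ k.primeFactors, p := by
                rw [← prod_const]
                exact Finset.prod_le_prod' fun p hp => (Nat.prime_of_mem_primeFactors hp).two_le
            _ ≤ k := Nat.le_of_dvd (by omega) (Nat.prod_primeFactors_dvd k)
        have h14 : ((S.filter (fun p => p ∣ k)).card : ℝ) * Real.log 2 ≤ Real.log k := by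
          rw [← Real.log_pow]
          apply Real.log_le_log (by positivity)
          exact_mod_cast h12
        have h15 := Real.log_two_gt_d9
        have h16 : (0 : ℝ) ≤ ((S.filter (fun p => p ∣ k)).card : ℝ) := by positivity
        nlinarith
      have h17 : 4 * Real.log k / v₀ = 2 * Real.log k * (2 / v₀) := by ring
      rw [h17]
      have : ((S.filter (fun p => p ∣ k)).card : ℝ) * (2 / v₀) ≤ 2 * Real.log k * (2 / v₀) := by
        gcongr
      linarith
    calc (1 : ℝ) = Real.exp (-(4 * Real.log k / v₀)) * Real.exp (4 * Real.log k / v₀) := by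
          rw [← Real.exp_add]; simp
      _ ≤ _ := by gcongr
  have h5 : 0 ≤ ∏ p ∈ S.filter (fun p => ¬ p ∣ k), (1 - 1 / (p : ℝ)) := by
    apply prod_nonneg
    intro p hp
    exact (one_sub_inv_pos (hS p (mem_filter.1 hp).1).1).le
  calc ∏ p ∈ S.filter (fun p => ¬ p ∣ k), (1 - 1 / (p : ℝ))
      = (∏ p ∈ S.filter (fun p => ¬ p ∣ k), (1 - 1 / (p : ℝ))) * 1 := by rw [mul_one]
    _ ≤ (∏ p ∈ S.filter (fun p => ¬ p ∣ k), (1 - 1 / (p : ℝ))) *
        ((∏ p ∈ S.filter (fun p => p ∣ k), (1 - 1 / (p : ℝ))) * Real.exp (4 * Real.log k / v₀)) := by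
        gcongr
    _ = _ := by rw [h2]; ring

/-- the number of classes `s` modulo `p` with `p ∤ (t - s) (a (t + s) + b)` -/
theorem card_classes (a : ℕ) (b t : ℤ) (p : ℕ) (hp : p.Prime) (hpa : ¬ p ∣ 2 * a)
    (hN : ¬ (p : ℤ) ∣ 2 * a * t + b) :
    ((range p).filter (fun s : ℕ => ¬ (p : ℤ) ∣ (a : ℤ) * t ^ 2 + b * t - (a * (s : ℤ) ^ 2 + b * s))).card ≤
      p - 2 := by
  have hpz : (0 : ℤ) < p := by exact_mod_cast hp.pos
  have hpa' : ¬ (p : ℤ) ∣ (a : ℤ) := by
    intro h
    exact hpa ((Int.natCast_dvd_natCast.1 h).mul_left 2)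
  have hcop : IsCoprime (a : ℤ) (p : ℤ) :=
    (((Nat.prime_iff_prime_int.1 hp).coprime_iff_not_dvd.2 hpa').symm)
  obtain ⟨i, j, hij⟩ := hcop
  set s₁ : ℕ := (t % p).toNat with hs₁
  set s₂ : ℕ := ((-t - i * b) % p).toNat with hs₂
  have e1 : (s₁ : ℤ) = t % p := by rw [hs₁, Int.toNat_of_nonneg (Int.emod_nonneg _ hpz.ne')]
  have e2 : (s₂ : ℤ) = (-t - i * b) % p := by
    rw [hs₂, Int.toNat_of_nonneg (Int.emod_nonneg _ hpz.ne')]
  have d1 : (p : ℤ) ∣ t - s₁ := by
    rw [e1]; exact Int.dvd_self_sub_emod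
  have d2 : (p : ℤ) ∣ (-t - i * b) - s₂ := by
    rw [e2]; exact Int.dvd_self_sub_emod
  have m1 : s₁ ∈ range p := by
    rw [mem_range]
    have := Int.emod_lt_of_pos t hpz
    omega
  have m2 : s₂ ∈ range p := by
    rw [mem_range]
    have := Int.emod_lt_of_pos (-t - i * b) hpz
    omega
  have hne : s₁ ≠ s₂ := by
    intro h
    apply hN
    rw [h] at d1
    have h3 := dvd_sub d1 d2
    have h4 : t - (s₂ : ℤ) - (-t - i * b - s₂) = 2 * t + i * b := by ring
    rw [h4] at h3
    have h5 := h3.mul_left (a : ℤ)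
    have h6 : (p : ℤ) ∣ j * p * b := (dvd_mul_of_dvd_left (dvd_mul_left _ _) _)
    have h7 := dvd_add h5 h6
    refine h7.trans (dvd_of_eq ?_)
    linear_combination b * hij
  have hsub : (range p).filter (fun s : ℕ => ¬ (p : ℤ) ∣ (a : ℤ) * t ^ 2 + b * t - (a * (s : ℤ) ^ 2 + b * s)) ⊆
      ((range p).erase s₁).erase s₂ := by
    intro s hs
    rw [mem_filter] at hs
    rw [mem_erase, mem_erase]
    refine ⟨?_, ?_, hs.1⟩
    · rintro rfl
      apply hs.2
      -- a (t + s) + b ≡ 0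
      have h3 : (p : ℤ) ∣ (a : ℤ) * (t + s₂) + b := by
        have h5 := (d2.mul_left (a : ℤ)).neg_right
        have h6 : (p : ℤ) ∣ j * p * b := (dvd_mul_of_dvd_left (dvd_mul_left _ _) _)
        have h7 := dvd_add h5 h6
        refine h7.trans (dvd_of_eq ?_)
        linear_combination b * hij
      refine (h3.mul_left (t - s₂)).trans (dvd_of_eq ?_)
      ring
    · rintro rfl
      apply hs.2
      refine (d1.mul_right ((a : ℤ) * (t + s₁) + b)).trans (dvd_of_eq ?_)
      ring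
  have h7 := card_le_card hsub
  rw [card_erase_of_mem (mem_erase.2 ⟨fun h => hne h.symm, m2⟩), card_erase_of_mem m1, card_range] at h7
  omega

end Pool.Agent.N893.CF
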