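import Mathlib
import Pool.Agent.N893.CF.Surv

set_option autoImplicit false
set_option maxHeartbeats 4000000

/-! # Quadratic polynomials `a t² + b t + c` without small prime values: the survivors, II -/

namespace Pool.Agent.N893.CF

open Finset Filter Pool.Agent.H318R2.Cr Pool.Agent.H398R2.RK Pool.Agent.N893.RK

open scoped Classical

/-- `t` is not removed by the special classes. -/
def Ok (a : ℕ) (b : ℤ) (u : ℕ) (y : ℝ) (S : Finset ℕ) (t : ℤ) : Prop :=
  ∀ p : ℕ, p.Prime → ¬ p ∣ 2 * a → (p : ℝ) ≤ y → p ∉ S → ¬ (p : ℤ) ∣ (2 * a * t + b) ^ 2 - (u : ℤ) ^ 2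

theorem factor_of (a : ℕ) (b : ℤ) (u : ℕ) (y : ℝ) (S : Finset ℕ)
    (hu : ∀ q : ℕ, q.Prime → q ∣ 2 * a → ¬ (q : ℤ) ∣ b - u ∧ ¬ (q : ℤ) ∣ b + u)
    (t ε : ℤ) (hε : ε = 1 ∨ ε = -1) (ht : Ok a b u y S t) (p : ℕ) (hp : p.Prime)
    (hd : (p : ℤ) ∣ ε * (2 * a * t + b) - u ∨ (p : ℤ) ∣ ε * (2 * a * t + b) + u) : y < p ∨ p ∈ S := by
  by_contra hcon
  push Not at hcon
  obtain ⟨h1, h2⟩ := hcon
  have hsq : (ε * (2 * a * t + b) - u) * (ε * (2 * a * t + b) + u) = (2 * a * t + b) ^ 2 - (u : ℤ) ^ 2 := by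
    rcases hε with rfl | rfl <;> ring
  have h3 : (p : ℤ) ∣ (2 * a * t + b) ^ 2 - (u : ℤ) ^ 2 := by
    rw [← hsq]
    rcases hd with h | h
    · exact h.mul_right _
    · exact h.mul_left _
  by_cases hpa : p ∣ 2 * a
  · have h4 : (p : ℤ) ∣ 2 * a * t := by
      have := Int.natCast_dvd_natCast.2 hpa
      push_cast at this
      exact this.mul_right t
    obtain ⟨g1, g2⟩ := hu p hp hpa
    have h5 : (p : ℤ) ∣ (2 * a * t + b - u) * (2 * a * t + b + u) := by
      refine h3.trans (dvd_of_eq ?_); ring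
    rcases (Nat.prime_iff_prime_int.1 hp).dvd_or_dvd h5 with h | h
    · apply g1
      have := dvd_sub h h4
      refine this.trans (dvd_of_eq ?_); ring
    · apply g2
      have := dvd_sub h h4
      refine this.trans (dvd_of_eq ?_); ring
  · exact ht p hp hpa h1 h2 h3

/-- the number of the `t` which are not removed by the special classes, with `ε (2 a t + b) > u` -/
theorem card_side (a : ℕ) (ha : 1 ≤ a) (b : ℤ) (u : ℕ) (y : ℝ) (S : Finset ℕ)
    (hu : ∀ q : ℕ, q.Prime → q ∣ 2 * a → ¬ (q : ℤ) ∣ b - u ∧ ¬ (q : ℤ) ∣ b + u)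
    (ε : ℤ) (hε : ε = 1 ∨ ε = -1) (H M : ℕ) (hM : 2 * a * H + b.natAbs + 2 * u ≤ M)
    (Sm : ℕ → Prop) (hdich : ∀ m : ℕ, 1 ≤ m → m ≤ M →
      (∀ p : ℕ, p.Prime → p ∣ m → (y < p ∨ p ∈ S)) → Sm m ∨ m.Prime) :
    ((Finset.Icc (-(H : ℤ)) H).filter (fun t => Ok a b u y S t ∧ (u : ℤ) < ε * (2 * a * t + b))).card ≤
      2 * ((Finset.Icc 1 M).filter Sm).card +
        ((Finset.Icc 1 M).filter (fun n => n.Prime ∧ (n + 2 * u).Prime)).card := by
  set Q := (Finset.Icc (-(H : ℤ)) H).filter (fun t => Ok a b u y S t ∧ (u : ℤ) < ε * (2 * a * t + b)) with hQ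
  set f : ℤ → ℕ := fun t => (ε * (2 * a * t + b) - u).toNat with hf
  have hfz : ∀ t ∈ Q, (f t : ℤ) = ε * (2 * a * t + b) - u := by
    intro t ht
    rw [hQ, mem_filter] at ht
    rw [hf]
    exact Int.toNat_of_nonneg (by linarith [ht.2.2])
  have hinj : Set.InjOn f Q := by
    intro t ht t' ht' h
    have h1 := hfz t (mem_coe.1 ht)
    have h2 := hfz t' (mem_coe.1 ht')
    rw [h, h2] at h1
    have ha' : (a : ℤ) ≠ 0 := by exact_mod_cast (by omega : a ≠ 0)
    have h3 : (2 * (a : ℤ)) * t' = (2 * a) * t := by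
      rcases hε with rfl | rfl <;> linarith
    exact (mul_left_cancel₀ (by simpa using ha') h3).symm
  have hsub : Q.image f ⊆ (Finset.Icc 1 M).filter Sm ∪ ((Finset.Icc 1 M).filter Sm).image (fun n => n - 2 * u) ∪
      (Finset.Icc 1 M).filter (fun n => n.Prime ∧ (n + 2 * u).Prime) := by
    intro m hm
    rw [mem_image] at hm
    obtain ⟨t, ht, rfl⟩ := hm
    have h1 := hfz t ht
    rw [hQ, mem_filter, mem_Icc] at ht
    obtain ⟨⟨ht1, ht2⟩, hok, htu⟩ := ht
    have hm1 : 1 ≤ f t := by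
      have : (1 : ℤ) ≤ f t := by rw [h1]; linarith
      exact_mod_cast this
    have hmM : f t + 2 * u ≤ M := by
      have h2 : (f t : ℤ) + 2 * u ≤ 2 * a * H + b.natAbs + 2 * u := by
        rw [h1]
        have h3 : ε * (2 * a * t + b) ≤ 2 * a * H + |b| := by
          have hb1 := le_abs_self b
          have hb2 := neg_abs_le b
          have ha0 : (0 : ℤ) ≤ 2 * a := by positivity
          rcases hε with rfl | rfl
          · nlinarith
          · nlinarith
        have h4 : (b.natAbs : ℤ) = |b| := Int.natCast_natAbs b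
        rw [h4]
        linarith
      have h5 : ((2 * a * H + b.natAbs + 2 * u : ℕ) : ℤ) ≤ M := by exact_mod_cast hM
      push_cast at h5
      have h6 : (b.natAbs : ℤ) = |b| := Int.natCast_natAbs b
      have : ((f t + 2 * u : ℕ) : ℤ) ≤ M := by push_cast; linarith
      exact_mod_cast this
    have hA := hdich (f t) hm1 (by omega) (by
      intro p hp hd
      apply factor_of a b u y S hu t ε hε hok p hp
      left
      rw [← h1]
      exact Int.natCast_dvd_natCast.2 hd)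
    have hB := hdich (f t + 2 * u) (by omega) hmM (by
      intro p hp hd
      apply factor_of a b u y S hu t ε hε hok p hp
      right
      have h2 : ε * (2 * a * t + b) + u = ((f t + 2 * u : ℕ) : ℤ) := by
        push_cast
        linarith
      rw [h2]
      exact Int.natCast_dvd_natCast.2 hd)
    rw [mem_union, mem_union]
    rcases hA with hA | hA
    · left; left
      exact mem_filter.2 ⟨mem_Icc.2 ⟨hm1, by omega⟩, hA⟩
    · rcases hB with hB | hB
      · left; right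
        rw [mem_image]
        exact ⟨f t + 2 * u, mem_filter.2 ⟨mem_Icc.2 ⟨by omega, hmM⟩, hB⟩, by omega⟩
      · right
        exact mem_filter.2 ⟨mem_Icc.2 ⟨hm1, by omega⟩, hA, hB⟩
  have hcard : Q.card = (Q.image f).card := (card_image_of_injOn hinj).symm
  rw [hcard]
  refine (card_le_card hsub).trans ((card_union_le _ _).trans ?_)
  refine Nat.add_le_add_right ((card_union_le _ _).trans ?_) _
  have : (((Finset.Icc 1 M).filter Sm).image (fun n => n - 2 * u)).card ≤ ((Finset.Icc 1 M).filter Sm).card :=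
    card_image_le
  omega

theorem card_mid (a : ℕ) (ha : 1 ≤ a) (b : ℤ) (u : ℕ) (H : ℕ) :
    ((Finset.Icc (-(H : ℤ)) H).filter (fun t => |2 * a * t + b| ≤ (u : ℤ))).card ≤ 2 * u + 1 := by
  have h1 : ((Finset.Icc (-(H : ℤ)) H).filter (fun t => |2 * a * t + b| ≤ (u : ℤ))).card ≤
      (Finset.Icc (-(u : ℤ)) u).card := by
    apply card_le_card_of_injOn (fun t => 2 * a * t + b)
    · intro t ht
      rw [mem_coe, mem_filter] at ht
      rw [mem_coe, mem_Icc]
      exact abs_le.1 ht.2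
    · intro t _ t' _ h
      have ha' : (a : ℤ) ≠ 0 := by exact_mod_cast (by omega : a ≠ 0)
      have h3 : (2 * (a : ℤ)) * t = (2 * a) * t' := by
        have h4 : 2 * (a : ℤ) * t + b = 2 * a * t' + b := h
        linarith
      exact mul_left_cancel₀ (by simpa using ha') h3
  rw [Int.card_Icc] at h1
  omega

/-- all the `t` which are not removed by the special classes -/
theorem card_ok (a : ℕ) (ha : 1 ≤ a) (b : ℤ) (u : ℕ) (y : ℝ) (S : Finset ℕ)
    (hu : ∀ q : ℕ, q.Prime → q ∣ 2 * a → ¬ (q : ℤ) ∣ b - u ∧ ¬ (q : ℤ) ∣ b + u)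
    (H M : ℕ) (hM : 2 * a * H + b.natAbs + 2 * u ≤ M)
    (Sm : ℕ → Prop) (hdich : ∀ m : ℕ, 1 ≤ m → m ≤ M →
      (∀ p : ℕ, p.Prime → p ∣ m → (y < p ∨ p ∈ S)) → Sm m ∨ m.Prime) :
    ((Finset.Icc (-(H : ℤ)) H).filter (fun t => Ok a b u y S t)).card ≤
      4 * ((Finset.Icc 1 M).filter Sm).card +
        2 * ((Finset.Icc 1 M).filter (fun n => n.Prime ∧ (n + 2 * u).Prime)).card + (2 * u + 1) := by
  have h1 := card_side a ha b u y S hu 1 (Or.inl rfl) H M hM Sm hdich
  have h2 := card_side a ha b u y S hu (-1) (Or.inr rfl) H M hM Sm hdich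
  have h3 := card_mid a ha b u H
  have hsub : (Finset.Icc (-(H : ℤ)) H).filter (fun t => Ok a b u y S t) ⊆
      (Finset.Icc (-(H : ℤ)) H).filter (fun t => Ok a b u y S t ∧ (u : ℤ) < 1 * (2 * a * t + b)) ∪
      (Finset.Icc (-(H : ℤ)) H).filter (fun t => Ok a b u y S t ∧ (u : ℤ) < -1 * (2 * a * t + b)) ∪
      (Finset.Icc (-(H : ℤ)) H).filter (fun t => |2 * a * t + b| ≤ (u : ℤ)) := by
    intro t ht
    rw [mem_filter] at ht
    rw [mem_union, mem_union, mem_filter, mem_filter, mem_filter]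
    by_cases h : |2 * a * t + b| ≤ (u : ℤ)
    · exact Or.inr ⟨ht.1, h⟩
    · left
      rw [not_le, lt_abs] at h
      rcases h with h | h
      · exact Or.inl ⟨ht.1, ht.2, by linarith⟩
      · exact Or.inr ⟨ht.1, ht.2, by linarith⟩
  have h4 := card_le_card hsub
  have h5 := card_union_le ((Finset.Icc (-(H : ℤ)) H).filter (fun t => Ok a b u y S t ∧ (u : ℤ) < 1 * (2 * a * t + b)) ∪
      (Finset.Icc (-(H : ℤ)) H).filter (fun t => Ok a b u y S t ∧ (u : ℤ) < -1 * (2 * a * t + b)))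
      ((Finset.Icc (-(H : ℤ)) H).filter (fun t => |2 * a * t + b| ≤ (u : ℤ)))
  have h6 := card_union_le ((Finset.Icc (-(H : ℤ)) H).filter (fun t => Ok a b u y S t ∧ (u : ℤ) < 1 * (2 * a * t + b)))
      ((Finset.Icc (-(H : ℤ)) H).filter (fun t => Ok a b u y S t ∧ (u : ℤ) < -1 * (2 * a * t + b)))
  omega

theorem survivors_cf (a : ℕ) (ha : 1 ≤ a) (b : ℤ) (u : ℕ) (hu1 : 1 ≤ u)
    (hu : ∀ q : ℕ, q.Prime → q ∣ 2 * a → ¬ (q : ℤ) ∣ b - u ∧ ¬ (q : ℤ) ∣ b + u) :
    ∃ C : ℝ, 0 < C ∧ ∃ y₀ : ℝ, ∀ y : ℝ, y₀ ≤ y → ∀ H : ℕ, y ≤ H → (H : ℝ) ≤ y * (Real.log y) ^ 4 →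
    ∃ (S : Finset ℕ) (s : ℕ → ℕ), (∀ p ∈ S, p.Prime ∧ (Real.log y) ^ 5 < (p : ℝ) ∧ (p : ℝ) ≤ y) ∧
      (((Finset.Icc (-(H : ℤ)) H).filter (fun t => Ok a b u y S t ∧
        ∀ p ∈ S, ¬ (p : ℤ) ∣ (a : ℤ) * t ^ 2 + b * t - (a * (s p : ℤ) ^ 2 + b * (s p)))).card : ℝ) ≤
      C * H * (Real.log (Real.log y)) ^ 4 /
        ((Real.log y) ^ 4 * (Real.log (Real.log (Real.log y))) ^ 2) := by
  obtain ⟨C, hC, y₁, hy₁2, hR⟩ := Pool.Agent.N893.RK.rankin 5 (by norm_num)
  obtain ⟨Ct, hCt, htwin⟩ := pair_le u hu1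
  set K₁ : ℕ := 2 * a + b.natAbs + 2 * u with hK₁
  have hK1 : 1 ≤ K₁ := by omega
  obtain ⟨t₀, hev⟩ := ev_exp 5 1 one_pos
  refine ⟨((4 + 2 * Ct) * K₁ + (2 * u + 1)) * (9 * C ^ 2) + 1, by positivity,
    max y₁ (max (Real.exp (Real.exp t₀)) (Real.exp K₁)), fun y hy H hyH hHy => ?_⟩
  obtain ⟨S, hS, hprod, hsm, hdich⟩ := hR y ((le_max_left _ _).trans hy)
  have hy' := (le_max_left _ _).trans ((le_max_right _ _).trans hy)
  have hyK := (le_max_right _ _).trans ((le_max_right _ _).trans hy)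
  have hy0 : 0 < y := (Real.exp_pos _).trans_le hy'
  have hL1' : Real.exp t₀ ≤ Real.log y := by
    rw [← Real.log_exp (Real.exp t₀)]; exact Real.log_le_log (Real.exp_pos _) hy'
  have hKl : (K₁ : ℝ) ≤ Real.log y := by
    rw [← Real.log_exp (K₁ : ℝ)]; exact Real.log_le_log (Real.exp_pos _) hyK
  have hly : 0 < Real.log y := (Real.exp_pos _).trans_le hL1'
  set t := Real.log (Real.log y) with ht
  have htt : t₀ ≤ t := by
    rw [← Real.log_exp t₀]; exact Real.log_le_log (Real.exp_pos _) hL1'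
  obtain ⟨h1, h2, h5, h3, h4, _⟩ := hev t htt
  have hLe : Real.log y = Real.exp t := by rw [ht, Real.exp_log hly]
  have hye : y = Real.exp (Real.exp t) := by rw [← hLe, Real.exp_log hy0]
  have hly100 : 100 ≤ Real.log y := by rw [hLe]; exact h4
  have hy2 : 2 ≤ y := hy₁2.trans ((le_max_left _ _).trans hy)
  have hH0 : (0 : ℝ) < H := by linarith
  have hH2 : 2 ≤ H := by
    have : (2 : ℝ) ≤ H := by linarith
    exact_mod_cast this
  have ht0 : 0 < t := by linarith
  have hlt0 : 0 < Real.log t := by linarith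
  have hSprime : ∀ p ∈ S, p.Prime := fun p hp => (hS p hp).1
  set v₀ : ℝ := Real.log y ^ 5 with hv₀
  have hv₀100 : 100 * Real.log y ≤ v₀ := by
    have h6 : (100 : ℝ) ≤ Real.log y ^ 4 := by
      calc (100 : ℝ) ≤ Real.log y := hly100
        _ = Real.log y ^ 1 := (pow_one _).symm
        _ ≤ _ := pow_le_pow_right₀ (by linarith) (by norm_num)
    calc 100 * Real.log y ≤ Real.log y ^ 4 * Real.log y := by gcongr
      _ = v₀ := by rw [hv₀]; ring
  have hv3 : 3 ≤ v₀ := by linarith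
  have hSa : ∀ p ∈ S, ¬ p ∣ 2 * a := by
    intro p hp hd
    have h6 := Nat.le_of_dvd (by omega) hd
    have h7 : (p : ℝ) ≤ K₁ := by exact_mod_cast (by omega : p ≤ K₁)
    have h8 := (hS p hp).2.1
    linarith
  set M : ℕ := K₁ * H with hM
  have hMH : 2 * a * H + b.natAbs + 2 * u ≤ M := by
    rw [hM, hK₁]
    have e1 : b.natAbs ≤ b.natAbs * H := Nat.le_mul_of_pos_right _ (by omega)
    have e2 : 2 * u ≤ 2 * u * H := Nat.le_mul_of_pos_right _ (by omega)
    have e3 : (2 * a + b.natAbs + 2 * u) * H = 2 * a * H + b.natAbs * H + 2 * u * H := by ring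
    omega
  have hMr : (M : ℝ) = K₁ * H := by rw [hM]; push_cast; ring
  have hK1r : (1 : ℝ) ≤ K₁ := by exact_mod_cast hK1
  have hHM : (H : ℝ) ≤ M := by rw [hMr]; nlinarith
  have hyM : y ≤ M := hyH.trans hHM
  have hMle : (M : ℝ) ≤ y * Real.log y ^ 5 := by
    calc (M : ℝ) = K₁ * H := hMr
      _ ≤ Real.log y * (y * Real.log y ^ 4) := by gcongr
      _ = _ := by ring
  -- R
  obtain ⟨R, hRdef⟩ : ∃ R : Finset ℤ, R = (Finset.Icc (-(H : ℤ)) H).filter (fun t => Ok a b u y S t) := ⟨_, rfl⟩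
  set w : ℕ → ℤ → ℝ := fun p t => if (p : ℤ) ∣ 2 * a * t + b then 1 else 1 - 2 / (p : ℝ) with hw
  have hp2 : ∀ p ∈ S, (2 : ℝ) / p ≤ 1 := by
    intro p hp
    have h6 := (hS p hp).2.1
    rw [div_le_one (by linarith)]
    linarith
  have hw0 : ∀ p ∈ S, ∀ t, 0 ≤ w p t := by
    intro p hp t
    simp only [hw]
    split_ifs
    · norm_num
    · linarith [hp2 p hp]
  obtain ⟨s, _, hsc⟩ := greedy_abs S
    (fun (p c : ℕ) (t : ℤ) => (p : ℤ) ∣ (a : ℤ) * t ^ 2 + b * t - (a * (c : ℤ) ^ 2 + b * c))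
    (fun p => p) w (fun p hp => (hSprime p hp).pos) hw0 R (by
      intro p hp t _
      have hpp := hSprime p hp
      have hp0 : (p : ℝ) ≠ 0 := by exact_mod_cast hpp.ne_zero
      by_cases hN : (p : ℤ) ∣ 2 * a * t + b
      · simp only [hw, if_pos hN, one_mul]
        have := card_filter_le (range p) (fun c : ℕ => ¬ (p : ℤ) ∣ (a : ℤ) * t ^ 2 + b * t - (a * (c : ℤ) ^ 2 + b * c))
        rw [card_range] at this
        exact_mod_cast this
      · have h6 := card_classes a b t p hpp (hSa p hp) hN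
        simp only [hw, if_neg hN]
        have e1 : (1 - 2 / (p : ℝ)) * p = ((p - 2 : ℕ) : ℝ) := by
          rw [Nat.cast_sub hpp.two_le]; field_simp; simp
        rw [e1]
        have h7 : ((((range p).filter (fun s : ℕ => ¬ (p : ℤ) ∣ (a : ℤ) * t ^ 2 + b * t -
          (a * (s : ℤ) ^ 2 + b * s))).card : ℕ) : ℝ) ≤ ((p - 2 : ℕ) : ℝ) := by exact_mod_cast h6
        convert h7)
  refine ⟨S, s, hS, ?_⟩
  have hsub1 : (Finset.Icc (-(H : ℤ)) H).filter (fun t => Ok a b u y S t ∧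
        ∀ p ∈ S, ¬ (p : ℤ) ∣ (a : ℤ) * t ^ 2 + b * t - (a * (s p : ℤ) ^ 2 + b * (s p))) ⊆
      R.filter (fun t => ∀ p ∈ S, ¬ (p : ℤ) ∣ (a : ℤ) * t ^ 2 + b * t - (a * (s p : ℤ) ^ 2 + b * (s p))) := by
    intro t ht
    rw [mem_filter] at ht
    rw [mem_filter, hRdef, mem_filter]
    exact ⟨⟨ht.1, ht.2.1⟩, ht.2.2⟩
  have hsc' : ((R.filter (fun t => ∀ p ∈ S, ¬ (p : ℤ) ∣ (a : ℤ) * t ^ 2 + b * t -
      (a * (s p : ℤ) ^ 2 + b * (s p)))).card : ℝ) ≤ ∑ t ∈ R, ∏ p ∈ S, w p t := by convert hsc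
  refine (Nat.cast_le.2 (card_le_card hsub1)).trans (hsc'.trans ?_)
  -- the size of R
  have hcok := card_ok a ha b u y S hu H M hMH (Smo (2 * ((5 : ℕ) + 2)) y) (fun m hm1 hmM hfac =>
    hdich m hm1 ((by exact_mod_cast hmM : (m : ℝ) ≤ M).trans hMle) hfac)
  have h9a := hsm M hyM
  have h9 := htwin M (by
    have : (2 : ℝ) ≤ M := by linarith
    exact_mod_cast this)
  obtain ⟨A1, hA1⟩ : ∃ A1 : Finset ℕ, A1 = (Finset.Icc 1 M).filter (Smo (2 * ((5 : ℕ) + 2)) y) := ⟨_, rfl⟩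
  obtain ⟨A2, hA2⟩ : ∃ A2 : Finset ℕ, A2 = (Finset.Icc 1 M).filter (fun n => n.Prime ∧ (n + 2 * u).Prime) :=
    ⟨_, rfl⟩
  rw [← hRdef, ← hA1, ← hA2] at hcok
  have h9' : (A2.card : ℝ) ≤ Ct * M / (Real.log M) ^ 2 := by rw [hA2]; convert h9
  have h9a' : (A1.card : ℝ) ≤ (M : ℝ) / (Real.log y) ^ 5 := by rw [hA1]; convert h9a
  have hRcard : (R.card : ℝ) ≤ ((4 + 2 * Ct) * K₁ + (2 * u + 1)) * H / Real.log y ^ 2 := by
    have h8 : (R.card : ℝ) ≤ 4 * (A1.card : ℝ) + 2 * (A2.card : ℝ) + (2 * u + 1) := by exact_mod_cast hcok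
    have h10 : Ct * (M : ℝ) / (Real.log M) ^ 2 ≤ Ct * M / Real.log y ^ 2 := by
      apply div_le_div_of_nonneg_left (by positivity) (by positivity)
      apply pow_le_pow_left₀ hly.le
      exact Real.log_le_log hy0 hyM
    have h11 : (M : ℝ) / (Real.log y) ^ 5 ≤ M / Real.log y ^ 2 := by
      apply div_le_div_of_nonneg_left (by positivity) (by positivity)
      exact pow_le_pow_right₀ (by linarith) (by norm_num)
    have h12 : (1 : ℝ) ≤ H / Real.log y ^ 2 := by
      rw [one_le_div (by positivity)]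
      have h13 : Real.log y ^ 2 ≤ y := by
        rw [hye, Real.log_exp, ← Real.exp_nat_mul]
        apply Real.exp_le_exp.2
        push_cast
        have : 2 * t ≤ (5 + 5 : ℝ) * 20 * (5 + 5) * t ^ 2 := by nlinarith
        refine this.trans ?_
        have h3' := h3
        push_cast at h3'
        exact h3'
      linarith
    have h14 : (2 * u + 1 : ℝ) ≤ (2 * u + 1) * (H / Real.log y ^ 2) :=
      le_mul_of_one_le_right (by positivity) h12
    have h15 : ((4 + 2 * Ct) * K₁ + (2 * u + 1)) * H / Real.log y ^ 2 =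
        4 * (M / Real.log y ^ 2) + 2 * (Ct * M / Real.log y ^ 2) + (2 * u + 1) * (H / Real.log y ^ 2) := by
      rw [hMr]; ring
    rw [h15]
    linarith
  -- the product
  set Pr := ∏ p ∈ S, (1 - 1 / (p : ℝ)) with hPr
  have hP0 : 0 ≤ Pr := prod_nonneg fun p hp => (one_sub_inv_pos (hSprime p hp)).le
  have hterm : ∀ t ∈ R, 2 * (a : ℤ) * t + b ≠ 0 → ∏ p ∈ S, w p t ≤ 9 * Pr ^ 2 := by
    intro r hr hN
    set k : ℕ := (2 * (a : ℤ) * r + b).natAbs with hk
    have hk1 : 1 ≤ k := Int.natAbs_pos.2 hN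
    have e1 : ∏ p ∈ S, w p r ≤ ∏ p ∈ S.filter (fun p => ¬ p ∣ k), (1 - 1 / (p : ℝ)) ^ 2 := by
      rw [prod_filter]
      apply Finset.prod_le_prod (fun p hp => hw0 p hp r)
      intro p hp
      have hiff : (p : ℤ) ∣ 2 * a * r + b ↔ p ∣ k := Int.natCast_dvd
      simp only [hw]
      by_cases h : p ∣ k
      · rw [if_pos (hiff.2 h), if_neg (by simpa using h)]
      · rw [if_neg (fun h' => h (hiff.1 h')), if_pos h]
        have e : (2 : ℝ) / p = 2 * (1 / p) := by ring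
        rw [e]
        nlinarith [sq_nonneg (1 / (p : ℝ))]
    have e2 := prod_ndvd S v₀ hv3 (fun p hp => ⟨(hS p hp).1, (hS p hp).2.1⟩) k hk1
    have e3 : Real.exp (4 * Real.log k / v₀) ≤ 3 := by
      have hk0 : (0 : ℝ) < k := by exact_mod_cast hk1
      have h7 : Real.log k ≤ 6 * Real.log y := by
        have h8 : (k : ℝ) ≤ M := by
          have : k ≤ M := by
            rw [hRdef, mem_filter, mem_Icc] at hr
            have h9 : (k : ℤ) ≤ 2 * a * H + b.natAbs := by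
              rw [hk, Int.natCast_natAbs, Int.natCast_natAbs, abs_le]
              have hb1 := le_abs_self b
              have hb2 := neg_abs_le b
              have ha0 : (0 : ℤ) ≤ 2 * a := by positivity
              constructor <;> nlinarith [hr.1.1, hr.1.2]
            have h10 : k ≤ 2 * a * H + b.natAbs := by exact_mod_cast h9
            omega
          exact_mod_cast this
        have h10 : Real.log k ≤ Real.log (y * Real.log y ^ 5) := Real.log_le_log hk0 (h8.trans hMle)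
        rw [Real.log_mul hy0.ne' (by positivity), Real.log_pow, ← ht] at h10
        have h11 : t ≤ Real.log y := by
          rw [hLe]
          have := Real.add_one_le_exp t
          linarith
        push_cast at h10
        linarith
      have h8 : 4 * Real.log k / v₀ ≤ 1 := by
        rw [div_le_one (by linarith)]
        linarith
      calc Real.exp (4 * Real.log k / v₀) ≤ Real.exp 1 := Real.exp_le_exp.2 h8
        _ ≤ 3 := by have := Real.exp_one_lt_d9; linarith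
    rw [Finset.prod_pow] at e1
    refine e1.trans ?_
    have e4 : 0 ≤ ∏ p ∈ S.filter (fun p => ¬ p ∣ k), (1 - 1 / (p : ℝ)) :=
      prod_nonneg fun p hp => (one_sub_inv_pos (hSprime p (mem_filter.1 hp).1)).le
    calc (∏ p ∈ S.filter (fun p => ¬ p ∣ k), (1 - 1 / (p : ℝ))) ^ 2
        ≤ (Pr * 3) ^ 2 := by
          apply pow_le_pow_left₀ e4
          exact e2.trans (mul_le_mul_of_nonneg_left e3 hP0)
      _ = 9 * Pr ^ 2 := by ring
  have hone : ∀ t, ∏ p ∈ S, w p t ≤ 1 := by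
    intro r
    apply Finset.prod_le_one (fun p hp => hw0 p hp r)
    intro p hp
    simp only [hw]
    split_ifs
    · exact le_rfl
    · have : (0 : ℝ) ≤ 2 / p := by positivity
      linarith
  have hzero : ((R.filter (fun t => 2 * (a : ℤ) * t + b = 0)).card : ℝ) ≤ 1 := by
    have : (R.filter (fun t => 2 * (a : ℤ) * t + b = 0)).card ≤ 1 := by
      rw [card_le_one]
      intro r hr r' hr'
      rw [mem_filter] at hr hr'
      have ha' : (a : ℤ) ≠ 0 := by exact_mod_cast (by omega : a ≠ 0)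
      have h3 : (2 * (a : ℤ)) * r = (2 * a) * r' := by linarith [hr.2, hr'.2]
      exact mul_left_cancel₀ (by simpa using ha') h3
    exact_mod_cast this
  have hsum : ∑ t ∈ R, ∏ p ∈ S, w p t ≤ R.card * (9 * Pr ^ 2) + 1 := by
    rw [← sum_filter_add_sum_filter_not R (fun t => 2 * (a : ℤ) * t + b = 0)]
    have e1 : ∑ t ∈ R.filter (fun t => 2 * (a : ℤ) * t + b = 0), ∏ p ∈ S, w p t ≤ 1 := by
      calc ∑ t ∈ R.filter (fun t => 2 * (a : ℤ) * t + b = 0), ∏ p ∈ S, w p t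
          ≤ ∑ t ∈ R.filter (fun t => 2 * (a : ℤ) * t + b = 0), (1 : ℝ) := sum_le_sum fun t _ => hone t
        _ = (R.filter (fun t => 2 * (a : ℤ) * t + b = 0)).card := by rw [sum_const, nsmul_eq_mul, mul_one]
        _ ≤ 1 := hzero
    have e2 : ∑ t ∈ R.filter (fun t => ¬ 2 * (a : ℤ) * t + b = 0), ∏ p ∈ S, w p t ≤
        R.card * (9 * Pr ^ 2) := by
      calc ∑ t ∈ R.filter (fun t => ¬ 2 * (a : ℤ) * t + b = 0), ∏ p ∈ S, w p t
          ≤ ∑ t ∈ R.filter (fun t => ¬ 2 * (a : ℤ) * t + b = 0), 9 * Pr ^ 2 :=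
            sum_le_sum fun t ht => hterm t (mem_filter.1 ht).1 (mem_filter.1 ht).2
        _ = (R.filter (fun t => ¬ 2 * (a : ℤ) * t + b = 0)).card * (9 * Pr ^ 2) := by
            rw [sum_const, nsmul_eq_mul]
        _ ≤ _ := by
            apply mul_le_mul_of_nonneg_right _ (by positivity)
            exact_mod_cast card_le_card (filter_subset _ _)
    linarith
  refine hsum.trans ?_
  have hfin1 : R.card * (9 * Pr ^ 2) ≤ (((4 + 2 * Ct) * K₁ + (2 * u + 1)) * (9 * C ^ 2)) * (H * t ^ 4 /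
      (Real.log y ^ 4 * Real.log t ^ 2)) := by
    calc R.card * (9 * Pr ^ 2) ≤ (((4 + 2 * Ct) * K₁ + (2 * u + 1)) * H / Real.log y ^ 2) *
          (9 * (C * (t ^ 2 / (Real.log y * Real.log t))) ^ 2) := by gcongr
      _ = _ := by
        field_simp
        try ring
  have hfin2 : 1 ≤ H * t ^ 4 / (Real.log y ^ 4 * Real.log t ^ 2) := by
    rw [one_le_div (by positivity)]
    have h13 : Real.log y ^ 4 ≤ y := by
      rw [hye, Real.log_exp, ← Real.exp_nat_mul]
      apply Real.exp_le_exp.2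
      push_cast
      have : 4 * t ≤ (5 + 5 : ℝ) * 20 * (5 + 5) * t ^ 2 := by nlinarith
      refine this.trans ?_
      have h3' := h3
      push_cast at h3'
      exact h3'
    have h14 : Real.log t ^ 2 ≤ t ^ 4 := by
      calc Real.log t ^ 2 ≤ t ^ 2 := pow_le_pow_left₀ hlt0.le h5 2
        _ ≤ t ^ 4 := pow_le_pow_right₀ h1 (by norm_num)
    exact mul_le_mul (h13.trans hyH) h14 (by positivity) hH0.le
  have e : (((4 + 2 * Ct) * K₁ + (2 * u + 1)) * (9 * C ^ 2) + 1) * H * t ^ 4 /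
      (Real.log y ^ 4 * Real.log t ^ 2) = (((4 + 2 * Ct) * K₁ + (2 * u + 1)) * (9 * C ^ 2)) * (H * t ^ 4 /
      (Real.log y ^ 4 * Real.log t ^ 2)) + H * t ^ 4 / (Real.log y ^ 4 * Real.log t ^ 2) := by ring
  rw [e]
  linarith

end Pool.Agent.N893.CF
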