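import Mathlib
import Pool.Agent.N893.CF.Surv2
import Pool.Agent.N893.QA.Fin

set_option autoImplicit false
set_option maxHeartbeats 4000000

/-! # Quadratic polynomials `a t² + b t + c` without small prime values: the assembly -/

namespace Pool.Agent.N893.CF

open Finset Filter Pool.Agent.N893.QA

open scoped Classical

theorem inv_nat (p : ℕ) (hp : p.Prime) (α : ℤ) (hα : ¬ (p : ℤ) ∣ α) (w : ℤ) :
    ∃ β : ℕ, (p : ℤ) ∣ α * β - w := by
  have hcop : IsCoprime α (p : ℤ) :=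
    ((Nat.prime_iff_prime_int.1 hp).coprime_iff_not_dvd.2 hα).symm
  obtain ⟨i, j, hij⟩ := hcop
  have hpz : (0 : ℤ) < p := by exact_mod_cast hp.pos
  refine ⟨((i * w) % p).toNat, ?_⟩
  rw [Int.toNat_of_nonneg (Int.emod_nonneg _ hpz.ne')]
  have h1 : (i * w) % p = i * w - p * ((i * w) / p) := Int.emod_def _ _
  rw [h1]
  refine ⟨-(j * w) - α * ((i * w) / p), ?_⟩
  linear_combination w * hij

/-- the auxiliary integer `u` -/
theorem exists_u (a : ℕ) (ha : 1 ≤ a) (b : ℤ) (q₀ : ℕ) (hq₀ : q₀.Prime) (hq₀a : 2 * a < q₀) :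
    ∃ u : ℕ, 1 ≤ u ∧ q₀ ∣ u ∧
      ∀ q : ℕ, q.Prime → q ∣ 2 * a → ¬ (q : ℤ) ∣ b - u ∧ ¬ (q : ℤ) ∣ b + u := by
  set F := (2 * a).primeFactors.filter (fun q : ℕ => ¬ (q : ℤ) ∣ b) with hF
  have hpos : 0 < ∏ q ∈ F, q := prod_pos fun q hq =>
    (Nat.prime_of_mem_primeFactors (mem_filter.1 hq).1).pos
  refine ⟨q₀ * ∏ q ∈ F, q, Nat.mul_pos hq₀.pos hpos, dvd_mul_right _ _, fun q hq hqa => ?_⟩
  have hqle := Nat.le_of_dvd (by omega) hqa
  by_cases hb : (q : ℤ) ∣ b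
  · have hqu : ¬ (q : ℤ) ∣ ((q₀ * ∏ q ∈ F, q : ℕ) : ℤ) := by
      intro h
      have h1 := Int.natCast_dvd_natCast.1 h
      rcases (Nat.Prime.dvd_mul hq).1 h1 with h2 | h2
      · have := (Nat.prime_dvd_prime_iff_eq hq hq₀).1 h2
        omega
      · obtain ⟨r, hr, hd⟩ := (hq.prime.dvd_finset_prod_iff _).1 h2
        have hrp := Nat.prime_of_mem_primeFactors (mem_filter.1 hr).1
        have := (Nat.prime_dvd_prime_iff_eq hq hrp).1 hd
        rw [← this] at hr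
        exact (mem_filter.1 hr).2 hb
    constructor
    · intro h
      apply hqu
      have := dvd_sub hb h
      refine this.trans (dvd_of_eq ?_); ring
    · intro h
      apply hqu
      have := dvd_sub h hb
      refine this.trans (dvd_of_eq ?_); ring
  · have hqu : (q : ℤ) ∣ ((q₀ * ∏ q ∈ F, q : ℕ) : ℤ) := by
      apply Int.natCast_dvd_natCast.2
      apply Dvd.dvd.mul_left
      apply dvd_prod_of_mem (fun q : ℕ => q)
      rw [hF, mem_filter, Nat.mem_primeFactors]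
      exact ⟨⟨hq, hqa, by omega⟩, hb⟩
    constructor
    · intro h
      apply hb
      have := dvd_add h hqu
      refine this.trans (dvd_of_eq ?_); ring
    · intro h
      apply hb
      have := dvd_sub h hqu
      refine this.trans (dvd_of_eq ?_); ring

/-- the class of `c` modulo `2 a q₀²` -/
theorem exists_c0 (a : ℕ) (ha : 1 ≤ a) (b : ℤ) (q₀ : ℕ) (hq₀ : q₀.Prime) (hq₀a : 2 * a < q₀) :
    ∃ c₀ : ℤ, (2 * a : ℤ) ∣ c₀ - 1 ∧ ((q₀ : ℤ) ^ 2) ∣ 4 * a * c₀ - (b ^ 2 - q₀) := by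
  have h2a : ¬ q₀ ∣ 2 * a := fun h => by have := Nat.le_of_dvd (by omega) h; omega
  have hc1 : IsCoprime ((2 * a : ℕ) : ℤ) ((q₀ : ℤ) ^ 2) := by
    apply IsCoprime.pow_right
    exact Nat.isCoprime_iff_coprime.2 ((hq₀.coprime_iff_not_dvd.2 h2a).symm)
  have hc2 : IsCoprime ((4 * a : ℤ)) ((q₀ : ℤ) ^ 2) := by
    have h4 : IsCoprime (2 : ℤ) ((q₀ : ℤ) ^ 2) := by
      have := hc1
      push_cast at this
      exact IsCoprime.of_mul_left_left this
    have h5 : (4 * a : ℤ) = 2 * ((2 * a : ℕ) : ℤ) := by push_cast; ring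
    rw [h5]
    exact IsCoprime.mul_left h4 hc1
  obtain ⟨r, s, hrs⟩ := hc1
  obtain ⟨i, j, hij⟩ := hc2
  push_cast at hrs
  set e : ℤ := i * (b ^ 2 - q₀) with he
  have he1 : ((q₀ : ℤ) ^ 2) ∣ 4 * a * e - (b ^ 2 - q₀) := by
    refine ⟨-(j * (b ^ 2 - q₀)), ?_⟩
    rw [he]
    linear_combination (b ^ 2 - (q₀ : ℤ)) * hij
  refine ⟨s * (q₀ : ℤ) ^ 2 + e * (r * (2 * a)), ?_, ?_⟩
  · refine ⟨(e - 1) * r, ?_⟩
    linear_combination hrs
  · have h1 : 4 * (a : ℤ) * (s * (q₀ : ℤ) ^ 2 + e * (r * (2 * a))) - (b ^ 2 - q₀) =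
        (4 * a * e - (b ^ 2 - q₀)) + (q₀ : ℤ) ^ 2 * (4 * a * s * (1 - e)) := by
      linear_combination (4 * a * e) * hrs
    rw [h1]
    exact dvd_add he1 (dvd_mul_right _ _)

theorem main (a : ℕ) (ha : 1 ≤ a) (b : ℤ) : ∃ κ : ℝ, 0 < κ ∧ ∃ X₀ : ℝ, ∀ X : ℝ, X₀ ≤ X → ∀ z : ℤ,
    ∃ c : ℤ, (z : ℝ) < c ∧ (c : ℝ) ≤ z + X ∧ (2 * a : ℤ) ∣ c - 1 ∧ ¬ IsSquare (b ^ 2 - 4 * a * c) ∧
      ∀ t : ℤ, |(t : ℝ)| ≤ κ * (Real.log X * (Real.log (Real.log X)) ^ 4 *
          (Real.log (Real.log (Real.log (Real.log X)))) ^ 2 /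
            (Real.log (Real.log (Real.log X))) ^ 4) →
        ¬ Prime (a * t ^ 2 + b * t + c) := by
  obtain ⟨q₀, hq₀a', hq₀⟩ := Nat.exists_infinite_primes (2 * a + 1)
  have hq₀a : 2 * a < q₀ := by omega
  obtain ⟨u, hu1, hq₀u, hu⟩ := exists_u a ha b q₀ hq₀ hq₀a
  obtain ⟨c₀, hc₀1, hc₀2⟩ := exists_c0 a ha b q₀ hq₀ hq₀a
  set α : ℕ := 2 * a * q₀ ^ 2 with hα
  have hα1 : 1 ≤ α := by
    rw [hα]
    have := hq₀.pos
    exact Nat.mul_pos (by omega) (pow_pos this 2)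
  have hα0r : (1 : ℝ) ≤ α := by exact_mod_cast hα1
  obtain ⟨C, hC, y₀, hsurv⟩ := survivors_cf a ha b u hu1 hu
  obtain ⟨k₀, hk₀, X₁, hass⟩ := Pool.Agent.H361R2.PA.assembleM 1
  obtain ⟨x₀, hhalf⟩ := ev_log_half
  set c₂ : ℝ := min 1 (5 * k₀ / C) with hc₂
  have hc₂0 : 0 < c₂ := lt_min one_pos (by positivity)
  have hc₂1 : c₂ ≤ 1 := min_le_left _ _
  have hc₂C : C * c₂ ≤ 5 * k₀ := by
    have : c₂ ≤ 5 * k₀ / C := min_le_right _ _
    rwa [le_div_iff₀ hC, mul_comm] at this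
  set K₂ : ℝ := |(c₀ : ℝ)| + a + |(b : ℝ)| + 1 with hK₂
  -- thresholds
  obtain ⟨x₁, hx₁⟩ := eventually_atTop.1 (ev_pow4 40)
  obtain ⟨x₂, hx₂⟩ := eventually_atTop.1 (ev_pow4 (16 / c₂))
  obtain ⟨x₃, hx₃⟩ : ∃ x₃ : ℝ, ∀ x : ℝ, x₃ ≤ x → K₂ * x ^ 4 ≤ Real.exp x := by
    have h := (Real.isLittleO_pow_exp_atTop (n := 4)).bound (c := 1 / (K₂ + 1)) (by positivity)
    obtain ⟨x₃, hx₃⟩ := eventually_atTop.1 h
    refine ⟨max x₃ 1, fun x hx => ?_⟩
    have h1 := hx₃ x ((le_max_left _ _).trans hx)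
    have h2 : 1 ≤ x := (le_max_right _ _).trans hx
    rw [Real.norm_of_nonneg (by positivity), Real.norm_of_nonneg (Real.exp_pos x).le] at h1
    have hK : 0 < K₂ + 1 := by positivity
    rw [div_mul_eq_mul_div, one_mul, le_div_iff₀ hK] at h1
    have h3 : 0 ≤ x ^ 4 := by positivity
    nlinarith
  have hlog1 := Real.tendsto_log_atTop
  have hl2 := hlog1.comp hlog1
  have hl3 := hlog1.comp hl2
  have hl4 := hlog1.comp hl3
  have hall := (((((hlog1.eventually_ge_atTop (max (max (20 * x₁) (max (20 * x₃) (20 * y₀))) (max x₀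
      (max (3 * Real.log (2 * α)) (max 20 (20 * Real.exp α)))))).and
    (hl2.eventually_ge_atTop (max (max (2 * x₂) x₀) 20))).and
    (hl3.eventually_ge_atTop (max x₀ 20))).and (hl4.eventually_ge_atTop 20)).and
    (eventually_ge_atTop (max (2 * α * X₁) (2 * α * 4))))
  obtain ⟨X₀, hX₀⟩ := eventually_atTop.1 hall
  refine ⟨c₂ / 1280, by positivity, X₀, fun X hX z => ?_⟩
  obtain ⟨⟨⟨⟨g1, g2⟩, g3⟩, g4⟩, g5⟩ := hX₀ X hX
  simp only [Function.comp_apply] at g2 g3 g4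
  set L1 := Real.log X with hL1
  set L2 := Real.log L1 with hL2
  set L3 := Real.log L2 with hL3
  set L4 := Real.log L3 with hL4
  simp only [max_le_iff, ge_iff_le] at g1 g2 g3 g5
  obtain ⟨⟨g1a, g1a', g1b⟩, g1c, g1d, g1e, g1f⟩ := g1
  obtain ⟨⟨g2a, g2b⟩, g2c⟩ := g2
  obtain ⟨g3a, g3b⟩ := g3
  obtain ⟨g5a, g5b⟩ := g5
  have hXpos : 0 < X := by
    have : (0 : ℝ) < 2 * α * 4 := by positivity
    linarith
  set X' := X / (2 * α) with hX'
  have hX'1 : X₁ ≤ X' := by rw [hX', le_div_iff₀ (by positivity)]; linarith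
  have hX'4 : 4 ≤ X' := by rw [hX', le_div_iff₀ (by positivity)]; linarith
  have hlogX' : Real.log X' = L1 - Real.log (2 * α) := by
    rw [hX', Real.log_div hXpos.ne' (by positivity)]
  have hlog8' : 0 ≤ Real.log (2 * α) := Real.log_nonneg (by linarith)
  set y := Real.log X' / 10 with hy
  have hyX' : Real.log X' = 10 * y := by rw [hy]; ring
  have hy1 : L1 / 20 ≤ y := by rw [hy, hlogX']; linarith
  have hy2 : y ≤ L1 := by rw [hy, hlogX']; linarith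
  have hy0 : 0 < y := by linarith
  have hyx1 : x₁ ≤ y := by linarith
  have hyx3 : x₃ ≤ y := by linarith
  have hyy0 : y₀ ≤ y := by linarith
  have hy_1 : 1 ≤ y := by linarith
  have hyα : Real.exp α ≤ y := by linarith
  set ly := Real.log y with hly
  have hlyα : (α : ℝ) ≤ ly := by
    rw [← Real.log_exp (α : ℝ)]
    exact Real.log_le_log (Real.exp_pos _) hyα
  have hly1 : L2 / 2 ≤ ly := (hhalf L1 g1c).2 y hy1
  have hly2 : ly ≤ L2 := Real.log_le_log hy0 hy2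
  have hly0 : 0 < ly := by linarith
  set lly := Real.log ly with hlly
  have hlly1 : L3 / 2 ≤ lly := (hhalf L2 g2b).2 ly (by linarith)
  have hlly2 : lly ≤ L3 := Real.log_le_log hly0 hly2
  have hlly0 : 0 < lly := by linarith
  set llly := Real.log lly with hllly
  have hllly1 : L4 / 2 ≤ llly := (hhalf L3 g3a).2 lly (by linarith)
  have hllly2 : llly ≤ L4 := Real.log_le_log hlly0 hlly2
  have hllly0 : 0 < llly := by linarith
  have hllly_le : llly ≤ lly := (Real.log_le_sub_one_of_pos hlly0).trans (by linarith)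
  have hP1 : 40 * ly ^ 4 ≤ y := hx₁ y hyx1
  have hP2 : 16 / c₂ * lly ^ 4 ≤ ly := hx₂ ly (by linarith)
  have hP3 : K₂ * y ^ 4 ≤ Real.exp y := hx₃ y hyx3
  set M : ℝ := c₂ * y * ly ^ 4 * llly ^ 2 / lly ^ 4 with hM
  have hM0 : 0 < M := by positivity
  set L : ℕ := ⌊M⌋₊ with hL
  have hLM : (L : ℝ) ≤ M := Nat.floor_le hM0.le
  have hly_le : ly ≤ ly ^ 4 := by
    calc ly = ly ^ 1 := (pow_one _).symm
      _ ≤ ly ^ 4 := pow_le_pow_right₀ (by linarith) (by norm_num)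
  have hly_4 : ly ^ 4 ≤ y := by
    have : 0 ≤ ly ^ 4 := by positivity
    linarith
  -- (a) y ≤ L
  have hMy : 2 * y ≤ M := by
    rw [hM, le_div_iff₀ (by positivity)]
    have e1 : 16 * lly ^ 4 ≤ c₂ * ly := by
      have := mul_le_mul_of_nonneg_left hP2 hc₂0.le
      calc 16 * lly ^ 4 = c₂ * (16 / c₂ * lly ^ 4) := by field_simp
        _ ≤ _ := this
    have e2 : (1 : ℝ) ≤ llly ^ 2 := one_le_pow₀ (by linarith)
    have e3 : 0 ≤ lly ^ 4 := by positivity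
    calc 2 * y * lly ^ 4 ≤ y * (16 * lly ^ 4) := by nlinarith
      _ ≤ y * (c₂ * ly) := by gcongr
      _ ≤ y * (c₂ * ly ^ 4) := by gcongr
      _ = c₂ * y * ly ^ 4 * 1 := by ring
      _ ≤ c₂ * y * ly ^ 4 * llly ^ 2 := by gcongr
  have hyL : y ≤ L := by
    have := Nat.lt_floor_add_one M
    rw [← hL] at this
    linarith
  -- (b) L ≤ y * ly ^ 4
  have hM_le : M ≤ y * ly ^ 4 := by
    have e1 : M = c₂ * y * ly ^ 4 * (llly ^ 2 / lly ^ 4) := by
      rw [hM]; field_simp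
    rw [e1]
    have e2 : llly ^ 2 / lly ^ 4 ≤ 1 := by
      rw [div_le_one (by positivity)]
      calc llly ^ 2 ≤ lly ^ 2 := pow_le_pow_left₀ hllly0.le hllly_le 2
        _ ≤ lly ^ 4 := pow_le_pow_right₀ (by linarith) (by norm_num)
    calc c₂ * y * ly ^ 4 * (llly ^ 2 / lly ^ 4) ≤ 1 * y * ly ^ 4 * 1 := by gcongr
      _ = _ := by ring
  have hL_le : (L : ℝ) ≤ y * ly ^ 4 := hLM.trans hM_le
  have hL_le2 : (L : ℝ) ≤ y ^ 2 := by
    calc (L : ℝ) ≤ y * ly ^ 4 := hL_le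
      _ ≤ y * y := by gcongr
      _ = y ^ 2 := by ring
  obtain ⟨S, s, hS, hs⟩ := hsurv y hyy0 L hyL hL_le
  have hSα : ∀ p ∈ S, ¬ p ∣ α := by
    intro p hp hd
    have h6 := Nat.le_of_dvd (by omega) hd
    have h7 : (p : ℝ) ≤ α := by exact_mod_cast h6
    have h8 := (hS p hp).2.1
    have h9 : ly ≤ ly ^ 5 := by
      calc ly = ly ^ 1 := (pow_one _).symm
        _ ≤ ly ^ 5 := pow_le_pow_right₀ (by linarith) (by norm_num)
    linarith
  -- the classes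
  have hb : ∀ p : ℕ, ∃ β : ℕ, p.Prime →
      (p ∈ S → (p : ℤ) ∣ α * β + c₀ + (a * (s p : ℤ) ^ 2 + b * (s p))) ∧
      (p ∉ S → ¬ p ∣ 2 * a → (p : ℤ) ∣ 4 * a * (α * β + c₀) - (b ^ 2 - (u : ℤ) ^ 2)) := by
    intro p
    by_cases hp : p.Prime
    · by_cases hpS : p ∈ S
      · have h1 : ¬ (p : ℤ) ∣ (α : ℤ) := fun h => hSα p hpS (Int.natCast_dvd_natCast.1 h)
        obtain ⟨β, hβ⟩ := inv_nat p hp α h1 (-c₀ - (a * (s p : ℤ) ^ 2 + b * (s p)))
        refine ⟨β, fun _ => ⟨fun _ => ?_, fun h => absurd hpS h⟩⟩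
        refine hβ.trans (dvd_of_eq ?_)
        ring
      · by_cases hpα : p ∣ α
        · refine ⟨0, fun _ => ⟨fun h => absurd h hpS, fun _ hpa => ?_⟩⟩
          have hpq : p ∣ q₀ ^ 2 := by
            rcases (Nat.Prime.dvd_mul hp).1 hpα with h | h
            · exact absurd h hpa
            · exact h
          have hpq' : p = q₀ := (Nat.prime_dvd_prime_iff_eq hp hq₀).1 (hp.dvd_of_dvd_pow hpq)
          rw [hpq']
          have h1 : (q₀ : ℤ) ∣ 4 * a * c₀ - (b ^ 2 - q₀) := (dvd_pow_self _ (by norm_num)).trans hc₀2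
          have h2 : (q₀ : ℤ) ∣ (u : ℤ) ^ 2 := (Int.natCast_dvd_natCast.2 hq₀u).trans (dvd_pow_self _ (by norm_num))
          have h3 := dvd_add h1 (dvd_sub h2 (dvd_refl (q₀ : ℤ)))
          refine h3.trans (dvd_of_eq ?_)
          push_cast
          ring
        · by_cases hpa : p ∣ 2 * a
          · exact ⟨0, fun _ => ⟨fun h => absurd h hpS, fun _ h => absurd hpa h⟩⟩
          · have h4a : ¬ (p : ℤ) ∣ (4 * a : ℤ) := by
              intro h
              have h5 : (p : ℤ) ∣ ((2 * (2 * a) : ℕ) : ℤ) := by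
                refine h.trans (dvd_of_eq ?_); push_cast; ring
              have h6 := Int.natCast_dvd_natCast.1 h5
              rcases (Nat.Prime.dvd_mul hp).1 h6 with h7 | h7
              · exact hpa (h7.trans (dvd_mul_right _ _))
              · exact hpa h7
            obtain ⟨e, he⟩ := inv_nat p hp (4 * a) h4a (b ^ 2 - (u : ℤ) ^ 2)
            have h1 : ¬ (p : ℤ) ∣ (α : ℤ) := fun h => hpα (Int.natCast_dvd_natCast.1 h)
            obtain ⟨β, hβ⟩ := inv_nat p hp α h1 (e - c₀)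
            refine ⟨β, fun _ => ⟨fun h => absurd h hpS, fun _ _ => ?_⟩⟩
            have h2 := dvd_add (hβ.mul_left (4 * a : ℤ)) he
            refine h2.trans (dvd_of_eq ?_)
            ring
    · exact ⟨0, fun h => absurd h hp⟩
  choose β hβ using hb
  set A : Finset ℤ := (Finset.Icc (-(L : ℤ)) L).image (fun t : ℤ => c₀ + (a * t ^ 2 + b * t)) with hA
  have hAcard : (A.card : ℝ) ≤ (Real.log X') ^ 2 := by
    have h1 : A.card ≤ 2 * L + 1 := by
      refine card_image_le.trans ?_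
      rw [Int.card_Icc]
      omega
    have h2 : (A.card : ℝ) ≤ 2 * (L : ℝ) + 1 := by exact_mod_cast h1
    rw [hyX']
    have h3 : (1 : ℝ) ≤ L := hy_1.trans hyL
    calc (A.card : ℝ) ≤ 2 * (L : ℝ) + 1 := h2
      _ ≤ 3 * y ^ 2 := by linarith
      _ ≤ (10 * y) ^ 2 := by nlinarith
  have hAbd : ∀ x ∈ A, |(x : ℝ)| ≤ Real.exp ((Real.log X') ^ 1) := by
    intro x hx
    rw [hA, mem_image] at hx
    obtain ⟨t, ht, rfl⟩ := hx
    rw [mem_Icc] at ht
    rw [pow_one, hyX']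
    have ht' : |(t : ℝ)| ≤ y ^ 2 := by
      refine le_trans ?_ hL_le2
      rw [abs_le]
      constructor
      · have : (-(L : ℤ) : ℝ) ≤ t := by exact_mod_cast ht.1
        push_cast at this ⊢
        linarith
      · exact_mod_cast ht.2
    have hy24 : y ^ 2 ≤ y ^ 4 := pow_le_pow_right₀ hy_1 (by norm_num)
    have hy4 : 1 ≤ y ^ 4 := one_le_pow₀ hy_1
    have e1 : |((c₀ + (a * t ^ 2 + b * t) : ℤ) : ℝ)| ≤ |(c₀ : ℝ)| + (a * y ^ 4 + |(b : ℝ)| * y ^ 4) := by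
      push_cast
      refine (abs_add_le _ _).trans (add_le_add le_rfl ((abs_add_le _ _).trans (add_le_add ?_ ?_)))
      · rw [abs_mul, abs_pow, Nat.abs_cast]
        have : |(t : ℝ)| ^ 2 ≤ (y ^ 2) ^ 2 := pow_le_pow_left₀ (abs_nonneg _) ht' 2
        have e : (y ^ 2) ^ 2 = y ^ 4 := by ring
        rw [e] at this
        gcongr
      · rw [abs_mul]
        have := ht'.trans hy24
        gcongr
    calc |((c₀ + (a * t ^ 2 + b * t) : ℤ) : ℝ)| ≤ |(c₀ : ℝ)| + (a * y ^ 4 + |(b : ℝ)| * y ^ 4) := e1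
      _ ≤ K₂ * y ^ 4 := by
        rw [hK₂]
        have : |(c₀ : ℝ)| ≤ |(c₀ : ℝ)| * y ^ 4 := le_mul_of_one_le_right (abs_nonneg _) hy4
        nlinarith
      _ ≤ Real.exp y := hP3
      _ ≤ Real.exp (10 * y) := Real.exp_le_exp.2 (by linarith)
  have hAS : (((A.filter (fun x => ∀ p : ℕ, p.Prime → (p : ℝ) ≤ Real.log X' / 10 →
      ¬ (p : ℤ) ∣ (α : ℤ) * (β p : ℤ) + x)).card : ℕ) : ℝ) ≤ k₀ * Real.log X' := by
    have hsub : A.filter (fun x => ∀ p : ℕ, p.Prime → (p : ℝ) ≤ Real.log X' / 10 →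
      ¬ (p : ℤ) ∣ (α : ℤ) * (β p : ℤ) + x) ⊆
        ((Finset.Icc (-(L : ℤ)) L).filter (fun t => Ok a b u y S t ∧
        ∀ p ∈ S, ¬ (p : ℤ) ∣ (a : ℤ) * t ^ 2 + b * t - (a * (s p : ℤ) ^ 2 + b * (s p)))).image
          (fun t : ℤ => c₀ + (a * t ^ 2 + b * t)) := by
      intro x hx
      rw [mem_filter, hA, mem_image] at hx
      obtain ⟨⟨t, ht, rfl⟩, hx⟩ := hx
      rw [mem_image]
      refine ⟨t, mem_filter.2 ⟨ht, ?_, ?_⟩, rfl⟩
      · intro p hp hpa hpy hpS hd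
        apply hx p hp hpy
        have h1 := (hβ p hp).2 hpS hpa
        have h2 := dvd_add h1 hd
        have h3 : (p : ℤ) ∣ (4 * a : ℤ) * ((α : ℤ) * (β p : ℤ) + (c₀ + (a * t ^ 2 + b * t))) := by
          refine h2.trans (dvd_of_eq ?_)
          ring
        have h4a : ¬ (p : ℤ) ∣ (4 * a : ℤ) := by
          intro h
          have h5 : (p : ℤ) ∣ ((2 * (2 * a) : ℕ) : ℤ) := by
            refine h.trans (dvd_of_eq ?_); push_cast; ring
          have h6 := Int.natCast_dvd_natCast.1 h5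
          rcases (Nat.Prime.dvd_mul hp).1 h6 with h7 | h7
          · exact hpa (h7.trans (dvd_mul_right _ _))
          · exact hpa h7
        rcases (Nat.prime_iff_prime_int.1 hp).dvd_or_dvd h3 with h | h
        · exact absurd h h4a
        · exact h
      · intro p hpS hd
        apply hx p (hS p hpS).1 (hS p hpS).2.2
        have h1 := (hβ p (hS p hpS).1).1 hpS
        have h2 := dvd_add h1 hd
        refine h2.trans (dvd_of_eq ?_)
        ring
    have h2 : ((A.filter (fun x => ∀ p : ℕ, p.Prime → (p : ℝ) ≤ Real.log X' / 10 →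
      ¬ (p : ℤ) ∣ (α : ℤ) * (β p : ℤ) + x)).card : ℝ) ≤
        (((Finset.Icc (-(L : ℤ)) L).filter (fun t => Ok a b u y S t ∧
        ∀ p ∈ S, ¬ (p : ℤ) ∣ (a : ℤ) * t ^ 2 + b * t - (a * (s p : ℤ) ^ 2 + b * (s p)))).card : ℝ) := by
      exact_mod_cast (card_le_card hsub).trans card_image_le
    refine h2.trans (hs.trans ?_)
    have h3 : C * L * lly ^ 4 / (ly ^ 4 * llly ^ 2) ≤ C * c₂ * y := by
      calc C * L * lly ^ 4 / (ly ^ 4 * llly ^ 2) ≤ C * M * lly ^ 4 / (ly ^ 4 * llly ^ 2) := by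
            gcongr
        _ = C * c₂ * y := by
            rw [hM]
            field_simp
    have h4 : C * c₂ * y ≤ 5 * k₀ * y := by gcongr
    refine h3.trans (h4.trans ?_)
    rw [hyX']
    nlinarith
  obtain ⟨n, hn1, hn2, _, hn4⟩ := hass X' hX'1 α hα1 (by
      rw [pow_one, hlogX']
      have h1 : Real.log α ≤ Real.log (2 * α) := Real.log_le_log (by positivity) (by linarith)
      linarith) A hAcard hAbd β hAS ((z - c₀) / α)
  have hαz : (0 : ℤ) < α := by exact_mod_cast hα1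
  have hz1 : α * ((z - c₀) / α) ≤ z - c₀ := Int.mul_ediv_self_le hαz.ne'
  have hz2 : z - c₀ < α * ((z - c₀) / α) + α := Int.lt_mul_ediv_self_add hαz
  have hz1r : (α : ℝ) * (((z - c₀) / α : ℤ) : ℝ) ≤ z - c₀ := by exact_mod_cast hz1
  have hz2r : (z : ℝ) - c₀ < α * (((z - c₀) / α : ℤ) : ℝ) + α := by exact_mod_cast hz2
  have hαX' : (α : ℝ) * X' = X / 2 := by rw [hX']; field_simp
  have hαr : (0 : ℝ) < α := by linarith
  have hc1 : (2 * a : ℤ) ∣ (α * n + c₀) - 1 := by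
    have h1 : (2 * a : ℤ) ∣ (α : ℤ) * n := by
      rw [hα]
      push_cast
      exact (dvd_mul_right _ _).mul_right _
    have h2 := dvd_add h1 hc₀1
    refine h2.trans (dvd_of_eq ?_)
    ring
  refine ⟨α * n + c₀, ?_, ?_, hc1, ?_, ?_⟩
  · push_cast
    have h1 := mul_lt_mul_of_pos_left hn1 hαr
    have h2 : (α : ℝ) * ((((z - c₀) / α : ℤ) : ℝ) + X' / 4) = α * (((z - c₀) / α : ℤ) : ℝ) + (α * X') / 4 := by ring
    rw [h2, hαX'] at h1
    have h3 : (α : ℝ) * 4 ≤ X / 2 := by rw [← hαX']; gcongr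
    linarith
  · push_cast
    have h1 := mul_le_mul_of_nonneg_left hn2 hαr.le
    rw [mul_add, hαX'] at h1
    linarith
  · rintro ⟨w, hw⟩
    have h1 : ((q₀ : ℤ) ^ 2) ∣ (b ^ 2 - 4 * a * (α * n + c₀)) - q₀ := by
      have h2 : ((q₀ : ℤ) ^ 2) ∣ 4 * a * ((α : ℤ) * n) := by
        rw [hα]
        push_cast
        exact ⟨4 * a * (2 * a * n), by ring⟩
      have h3 := (dvd_add h2 hc₀2).neg_right
      refine h3.trans (dvd_of_eq ?_)
      ring
    rw [hw] at h1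
    have hq₀p := Nat.prime_iff_prime_int.1 hq₀
    have h2 : (q₀ : ℤ) ∣ w * w := by
      have h3 : (q₀ : ℤ) ∣ w * w - q₀ := (dvd_pow_self _ (by norm_num)).trans h1
      have h4 := dvd_add h3 (dvd_refl (q₀ : ℤ))
      refine h4.trans (dvd_of_eq ?_); ring
    have h3 : (q₀ : ℤ) ∣ w := by
      rcases hq₀p.dvd_or_dvd h2 with h | h <;> exact h
    have h4 : (q₀ : ℤ) ^ 2 ∣ w * w := by
      rw [sq]; exact mul_dvd_mul h3 h3
    have h5 := dvd_sub h4 h1
    have h6 : w * w - (w * w - (q₀ : ℤ)) = q₀ := by ring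
    rw [h6] at h5
    have h7 : q₀ ^ 2 ∣ q₀ := by exact_mod_cast h5
    have h8 := Nat.le_of_dvd hq₀.pos h7
    have h9 := hq₀.two_le
    nlinarith
  · intro t ht hpr
    have htL : t.natAbs ≤ L := by
      rw [hL]
      apply Nat.le_floor
      have h1 : ((t.natAbs : ℕ) : ℝ) = |(t : ℝ)| := by rw [Nat.cast_natAbs]; push_cast; rfl
      rw [h1]
      refine ht.trans ?_
      have e1 : M = c₂ * (y * ly ^ 4 * llly ^ 2 / lly ^ 4) := by
        rw [hM]; field_simp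
      rw [e1]
      have e2 : c₂ / 1280 * (L1 * L2 ^ 4 * L4 ^ 2 / L3 ^ 4) =
          c₂ * ((L1 / 20) * (L2 / 2) ^ 4 * (L4 / 2) ^ 2 / L3 ^ 4) := by ring
      rw [e2]
      have hL2' : 0 ≤ L2 / 2 := by linarith
      have hL4' : 0 ≤ L4 / 2 := by linarith
      have hL1'' : 0 ≤ L1 / 20 := by linarith
      gcongr
    have hmem : c₀ + (a * t ^ 2 + b * t) ∈ A := by
      rw [hA, mem_image]
      refine ⟨t, mem_Icc.2 ⟨?_, ?_⟩, rfl⟩ <;> omega
    apply hn4 _ hmem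
    have e2 : (α : ℤ) * n + (c₀ + (a * t ^ 2 + b * t)) = a * t ^ 2 + b * t + (α * n + c₀) := by ring
    rw [e2]
    exact hpr

end Pool.Agent.N893.CF
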